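import Pool.Agent.Lib_helper45.JO.Defs

/-!
# Project JO, part FM (Maass frame): definitions, second part
-/

set_option autoImplicit false

namespace Pool.Agent.JO.FM

open Complex Filter Topology MeasureTheory Set
open UpperHalfPlane hiding I
open scoped MatrixGroups ComplexConjugate

/-- the entire function `L` and its connection with the ray transform -/
structure LFun (ν : ℂ) (ε : ℝ) (a : ℕ → ℂ) (f : ℍ → ℂ) (L : ℂ → ℂ) : Prop where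
  diff : Differentiable ℂ L
  ser : ∀ s : ℂ, 1 < s.re → LSeriesSummable a s ∧ L s = LSeries a s
  mf : ∀ (s : ℂ) (θ : ℝ), ν.re < s.re → θ ∈ Ioo 0 Real.pi →
    Mf f s θ = L s * Gs ν ε s θ

/-- `(1 - iX/τ)^(-1/2-iτ)`, close to `e^{-X}` -/
noncomputable def hs (τ X : ℝ) : ℂ := (1 - I * ((X / τ : ℝ) : ℂ)) ^ (-ha τ)

/-- the analytic continuation of `F(θ) = ray (phi f) θ` to the strip `0 < Re θ < π` -/
noncomputable def FC (ν : ℂ) (ε : ℝ) (L : ℂ → ℂ) (θ : ℂ) : ℂ :=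
  ((2 * Real.pi : ℝ) : ℂ)⁻¹ * ∫ t : ℝ, ((‖L (ha t)‖ ^ 2 : ℝ) : ℂ) * Ph ν ε t θ

/-- the diagonal part `D_q(Y) = ∑_m β_{qm} conj β_m W(2πq|m|Y/P)²` -/
noncomputable def Dg (P : ℕ) (ν : ℂ) (β : ℤ → ℂ) (q : ℕ) (Y : ℝ) : ℂ :=
  ∑' m : ℤ, β (q * m) * conj (β m) * ((‖WW ν (2 * Real.pi * q * |(m : ℝ)| * Y / P)‖ ^ 2 : ℝ) : ℂ)

/-- `U_q(Y₀) = ∫_{Y₀}^1 D_q(Y) dY/Y` -/
noncomputable def Ug (P : ℕ) (ν : ℂ) (β : ℤ → ℂ) (q : ℕ) (Y₀ : ℝ) : ℂ :=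
  ∫ Y in Y₀..1, Dg P ν β q Y / Y

/-- the value of `f_s` at `π/2` -/
noncomputable def ffH (s : ℂ) : ℂ := Gamma (s / 2) ^ 2 / (2 * Gamma s)

/-- the value of `f_s'` at `π/2` -/
noncomputable def fpH (s : ℂ) : ℂ := Gamma ((s + 1) / 2) ^ 2 / Gamma s

end Pool.Agent.JO.FM
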