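import Pool.Agent.Lib_helper84.JO.Final
import Pool.Agent.Lib_helper63.JO.Defs
import Pool.Agent.Lib_helper58.SP.Two

/-!
# Project JO, part FM (Maass frame): definitions
-/

set_option autoImplicit false

namespace Pool.Agent.JO.FM

open Complex Filter Topology MeasureTheory Set
open UpperHalfPlane hiding I
open scoped MatrixGroups ComplexConjugate

/-- the point `x + i y` of the upper half plane (`y > 0`) -/
noncomputable def pz (x y : ℝ) : ℍ := ofComplex ((x : ℂ) + y * I)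

/-- the K-Bessel function `K_ν(x) = (1/2) ∫_ℝ e^{-x cosh u + ν u} du`, `x > 0` -/
noncomputable def KK (ν : ℂ) (x : ℝ) : ℂ :=
  (1 / 2) * ∫ u : ℝ, cexp (-(x : ℂ) * (Real.cosh u : ℝ) + ν * u)

/-- `W(x) = √x K_ν(x)`: the decaying solution of `W'' = (1 + (ν² - 1/4)/x²) W` -/
noncomputable def WW (ν : ℂ) (x : ℝ) : ℂ := ((√x : ℝ) : ℂ) * KK ν x

/-- `ν` is real in `[0, 1/2)` or purely imaginary (in both cases `K_ν(x)` is real) -/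
structure GoodNu (ν : ℂ) : Prop where
  nonneg : 0 ≤ ν.re
  lt_half : ν.re < 1 / 2
  real_or : ν.im = 0 ∨ ν.re = 0

/-- a twice continuously differentiable eigenfunction of the Laplacian of weight `k` with
period `P` which vanishes at `i∞` -/
structure PerEig (P k : ℕ) (ev : ℝ) (F : ℍ → ℂ) : Prop where
  smooth : ContDiffOn ℝ 2 (fun z : ℂ => F (ofComplex z)) {z | 0 < z.im}
  eigen : ∀ z : ℍ, lap k F z = -(ev : ℂ) * F z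
  per : ∀ x y : ℝ, 0 < y → F (pz (x + P) y) = F (pz x y)
  cusp : Tendsto F atImInfty (𝓝 0)

/-- the `n`-th Fourier coefficient of a function of period `P` at height `y` -/
noncomputable def fc (P : ℕ) (F : ℍ → ℂ) (n : ℤ) (y : ℝ) : ℂ :=
  ((P : ℝ)⁻¹ : ℝ) * ∫ x in (0 : ℝ)..P, F (pz x y) * cexp (-(2 * Real.pi * n * x / P : ℝ) * I)

/-- the expansion `F(x+iy) = ∑_{m ≠ 0} β_m W(2π|m|y/P) e(mx/P)` (weight `0`), with the dyadic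
bound for the coefficients -/
structure Expn (P : ℕ) (ν : ℂ) (β : ℤ → ℂ) (F : ℍ → ℂ) : Prop where
  zero : β 0 = 0
  dyad : ∃ C : ℝ, ∀ M : ℕ, 0 < M →
    ∑ m ∈ Finset.Icc M (2 * M), (‖β (m : ℤ)‖ ^ 2 + ‖β (-(m : ℤ))‖ ^ 2) ≤ C
  hasSum : ∀ x y : ℝ, 0 < y → HasSum (fun m : ℤ =>
    β m * WW ν (2 * Real.pi * |(m : ℝ)| * y / P) * cexp ((2 * Real.pi * m * x / P : ℝ) * I))
    (F (pz x y))

/-- the coefficients `β_n = a(|n|) |n|^{-1/2}` for `n > 0`, `ε a(|n|) |n|^{-1/2}` for `n < 0` -/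
noncomputable def cf (ε : ℝ) (a : ℕ → ℂ) (n : ℤ) : ℂ :=
  if n = 0 then 0 else (if n < 0 then (ε : ℂ) else 1) * a n.natAbs * ((√(n.natAbs : ℝ) : ℝ) : ℂ)⁻¹

/-- everything about a Hecke-Maass form of weight `0` which is used on the rays `{r e^{iθ}}` -/
structure Frame0 (ν : ℂ) (ε : ℝ) (a : ℕ → ℂ) (f : ℍ → ℂ) : Prop where
  nu : GoodNu ν
  eps : ε = 1 ∨ ε = -1
  one : a 1 = 1
  smooth : ContDiffOn ℝ 2 (fun z : ℂ => f (ofComplex z)) {z | 0 < z.im}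
  expn : Expn 1 ν (cf ε a) f
  dec : ∃ C c : ℝ, 0 < c ∧ ∀ z : ℍ, ‖f z‖ ≤ C * Real.exp (-(c * z.im)) ∧
    ‖f z‖ ≤ C * Real.exp (-(c * (z.im / normSq (z : ℂ))))
  decd : ∃ C c : ℝ, 0 < c ∧ ∀ z : ℍ,
    z.im * (‖dX f z‖ + ‖dY f z‖) ≤ C * Real.exp (-(c * z.im)) ∧
    z.im * (‖dX f z‖ + ‖dY f z‖) ≤ C * Real.exp (-(c * (z.im / normSq (z : ℂ))))

/-- the point `r e^{iθ}` -/
noncomputable def pr (r θ : ℝ) : ℍ := ofComplex (r * cexp (θ * I))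

/-- the Mellin transform of `f` on the ray, `∫_0^∞ f(r e^{iθ}) r^{s-1/2} dr/r` -/
noncomputable def Mf (f : ℍ → ℂ) (s : ℂ) (θ : ℝ) : ℂ :=
  ∫ r in Ioi (0 : ℝ), f (pr r θ) * (r : ℂ) ^ (s - 3 / 2)

/-- the integral of plane waves: `Mf f s θ = L(s) * Gs ν ε s θ`; `θ` complex, `0 < Re θ < π` -/
noncomputable def Gs (ν : ℂ) (ε : ℝ) (s θ : ℂ) : ℂ :=
  ((2 * Real.pi : ℝ) : ℂ) ^ (1 / 2 - s) * Gamma s * Complex.sin θ ^ (1 / 2 : ℂ) * (1 / 2) *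
    ∫ u : ℝ, cexp (ν * u) *
      ((Complex.sin θ * (Real.cosh u : ℝ) - I * Complex.cos θ) ^ (-s) +
        ε * (Complex.sin θ * (Real.cosh u : ℝ) + I * Complex.cos θ) ^ (-s))

/-- the point `1/2 + i t` -/
noncomputable def ha (t : ℝ) : ℂ := 1 / 2 + (t : ℂ) * I

/-- `Φ(t, θ) = |G(1/2 + i t, θ)|²` on the real axis, analytic in `θ` -/
noncomputable def Ph (ν : ℂ) (ε t : ℝ) (θ : ℂ) : ℂ :=
  Gs ν ε (ha t) θ * conj (Gs ν ε (ha t) (conj θ))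

/-- `χ = 2 y² Im (conj f_x f_y)` -/
noncomputable def chi (f : ℍ → ℂ) (z : ℍ) : ℂ :=
  ((2 * z.im ^ 2 * (conj (dX f z) * dY f z).im : ℝ) : ℂ)

/-- `|f|²` -/
noncomputable def phi (f : ℍ → ℂ) (z : ℍ) : ℂ := ((‖f z‖ ^ 2 : ℝ) : ℂ)

/-- `∫_0^∞ K_ν(x)² x^{s-1} dx = 2^{s-3} Γ(s/2)² Γ(s/2+ν) Γ(s/2-ν) / Γ(s)` -/
noncomputable def kap (ν s : ℂ) : ℂ :=
  (2 : ℂ) ^ (s - 3) * Gamma (s / 2) ^ 2 * Gamma (s / 2 + ν) * Gamma (s / 2 - ν) / Gamma s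

/-- the transform `D_y(s) = ∫_0^{θ₀} f_s(θ) y(θ) dθ/sin² θ` -/
noncomputable def Dt (y : ℝ → ℂ) (θ₀ : ℝ) (s : ℂ) : ℂ :=
  ∫ θ in Ioo 0 θ₀, SP.ff s θ * y θ / ((Real.sin θ : ℝ) : ℂ) ^ 2

end Pool.Agent.JO.FM
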