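import Pool.Agent.Lib_helper45.JO.Defs2
import Pool.Agent.Lib_helper97.JO.HK
import Pool.Agent.Lib_helper84.JO.SETop

/-!
# Project JO, part FM, weight 0: interface with the other parts (definition)
-/

set_option autoImplicit false

namespace Pool.Agent.JO.FM

open Complex Filter Topology MeasureTheory Set
open UpperHalfPlane hiding I
open scoped MatrixGroups ComplexConjugate

/-- the target statement of S + E6 for Maass forms of weight `0` -/
def SEMaass0 (N : ℕ) [NeZero N] (Zf : ZMod N × ZMod N → ℝ → ℝ → ℂ) : Prop :=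
  ∀ (χ : DirichletCharacter ℂ N) (ev : ℝ) (f : ℍ → ℂ) (a : ℕ → ℂ) (ν : ℂ) (ε : ℝ),
    IsHeckeMaass N χ 0 ev f a → ν ^ 2 = 1 / 4 - ev → Frame0 ν ε a f → aMDec N f →
    (∀ θ₀ ∈ SP.II, ∃ (M : ℂ → ℂ) (R : ℝ), DifferentiableOn ℂ M SP.QQ ∧
      (∀ κ : ℝ, 0 < κ → Tendsto (fun η : ℝ => (η : ℂ) * M (SP.pt κ η)) (𝓝[>] 0) (𝓝 0)) ∧
      ∀ s : ℂ, s ∈ SP.QQ → R < s.re →
        s * kap ν (s + 1) * Dt (ray (phi f)) θ₀ s - kap ν s * Dt (ray (chi f)) θ₀ s = M s) →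
    SEConcl (N := N) Zf f

end Pool.Agent.JO.FM
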